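import Pool.Agent.X28.WB.Nest
import Pool.Agent.X28.WI.Pts

set_option autoImplicit false

/-! The two families through the Wilson quotients grow fast. -/

namespace Pool.Agent.X28.WB

open Set Filter Topology

lemma pow_big (p g : ℕ) (hp : 100 ≤ p) (hg : 2 ≤ g) : 12 * (p + g) ^ 2 ≤ p ^ (g + 1) := by
  induction g, hg using Nat.le_induction with
  | base =>
    have h1 : 100 * (p + 2) ≤ 102 * p := by omega
    have h2 : (100 * (p + 2)) ^ 2 ≤ (102 * p) ^ 2 := Nat.pow_le_pow_left h1 2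
    have h3 : p ^ (2 + 1) = p * p ^ 2 := by ring
    have h4 : 100 * p ^ 2 ≤ p * p ^ 2 := Nat.mul_le_mul_right _ hp
    have h5 : (100 * (p + 2)) ^ 2 = 10000 * (p + 2) ^ 2 := by ring
    have h6 : (102 * p) ^ 2 = 10404 * p ^ 2 := by ring
    omega
  | succ g hg ih =>
    have h1 : (p + (g + 1)) ^ 2 ≤ (2 * (p + g)) ^ 2 := Nat.pow_le_pow_left (by omega) 2
    have h2 : (2 * (p + g)) ^ 2 = 4 * (p + g) ^ 2 := by ring
    have h3 : p ^ (g + 1 + 1) = p * p ^ (g + 1) := by ring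
    have h4 : 100 * p ^ (g + 1) ≤ p * p ^ (g + 1) := Nat.mul_le_mul_right _ hp
    omega

lemma gap (p q : ℕ) (hp : p.Prime) (hq : q.Prime) (h100 : 100 ≤ p) (hpq : p < q) : ∃ g, 2 ≤ g ∧ q = p + g := by
  refine ⟨q - p, ?_, by omega⟩
  by_contra hlt
  have h1 : q = p + 1 := by omega
  have h2 := hp.eq_two_or_odd'.resolve_left (by omega)
  have h3 := hq.eq_two_or_odd'.resolve_left (by omega)
  rcases h2 with ⟨a, ha⟩
  rcases h3 with ⟨b, hb⟩
  omega

lemma gam_lt (z w : ℝ) (hz : 3 ≤ z) (hzw : z < w) : Real.Gamma z < Real.Gamma w := by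
  have h := Pool.Agent.X28.WI.slope_gam (z - 1) z w (by linarith) (by linarith) hzw
  have e : z - 1 + 1 = z := by ring
  have h1 := Real.Gamma_add_one (s := z - 1) (by linarith)
  have h2 : 0 < Real.Gamma (z - 1) := Real.Gamma_pos_of_pos (by linarith)
  rw [h1, le_div_iff₀ (by linarith)] at h
  have h3 : 0 < (z - 1) * Real.Gamma (z - 1) - Real.Gamma (z - 1) := by nlinarith
  have h4 : 0 < ((z - 1) * Real.Gamma (z - 1) - Real.Gamma (z - 1)) * (w - z) := mul_pos h3 (by linarith)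
  linarith

lemma gam_ratio (z w : ℝ) (hz : 3 ≤ z) (hzw : z < w) (k : ℕ) :
    z ^ k * (Real.Gamma w - Real.Gamma z) ≤ Real.Gamma (w + k) - Real.Gamma (z + k) := by
  have hG := gam_lt z w hz hzw
  induction k with
  | zero => simp
  | succ k ih =>
    have hk : (0 : ℝ) ≤ k := Nat.cast_nonneg _
    have e1 : w + ((k + 1 : ℕ) : ℝ) = (w + k) + 1 := by push_cast; ring
    have e2 : z + ((k + 1 : ℕ) : ℝ) = (z + k) + 1 := by push_cast; ring
    rw [e1, e2, Real.Gamma_add_one (by linarith), Real.Gamma_add_one (by linarith), pow_succ]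
    have h1 : 0 < Real.Gamma (w + k) := Real.Gamma_pos_of_pos (by linarith)
    have h2 : 0 ≤ z ^ k * (Real.Gamma w - Real.Gamma z) := mul_nonneg (by positivity) (by linarith)
    have h3 : z * (z ^ k * (Real.Gamma w - Real.Gamma z)) ≤ z * (Real.Gamma (w + k) - Real.Gamma (z + k)) :=
      mul_le_mul_of_nonneg_left ih (by linarith)
    have h4 : 0 ≤ k * (Real.Gamma (w + k) - Real.Gamma (z + k)) := mul_nonneg hk (h2.trans ih)
    have h5 : 0 ≤ (w - z) * Real.Gamma (w + k) := mul_nonneg (by linarith) h1.le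
    nlinarith

theorem shc_gr : Gr Pool.Agent.X28.WI.shc := by
  refine ⟨fun p hp => Pool.Agent.X28.WI.shc_cont p hp.pos, ?_, ?_⟩
  · intro p hp h100 x y hx hxy
    have hp' : (100 : ℝ) ≤ p := by exact_mod_cast h100
    rw [Pool.Agent.X28.WI.shc_eq p hx, Pool.Agent.X28.WI.shc_eq p (hx.trans hxy.le)]
    apply div_lt_div_of_pos_right _ (by positivity)
    have := gam_lt ((p : ℝ) + x) (p + y) (by linarith) (by linarith)
    linarith
  · intro p q hp hq h100 hpq x y hx hxy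
    obtain ⟨g, hg, rfl⟩ := gap p q hp hq h100 hpq
    have hp' : (100 : ℝ) ≤ p := by exact_mod_cast h100
    have hy : 0 ≤ y := hx.trans hxy.le
    rw [Pool.Agent.X28.WI.shc_eq p hx, Pool.Agent.X28.WI.shc_eq p hy, Pool.Agent.X28.WI.shc_eq _ hx,
      Pool.Agent.X28.WI.shc_eq _ hy, ← sub_div, ← sub_div, add_sub_add_right_eq_sub, add_sub_add_right_eq_sub]
    have h1 := gam_ratio ((p : ℝ) + x) (p + y) (by linarith) (by linarith) g
    have h2 := gam_lt ((p : ℝ) + x) (p + y) (by linarith) (by linarith)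
    have e1 : ((p + g : ℕ) : ℝ) + y = p + y + g := by push_cast; ring
    have e2 : ((p + g : ℕ) : ℝ) + x = p + x + g := by push_cast; ring
    rw [e1, e2]
    set Δ := Real.Gamma ((p : ℝ) + y) - Real.Gamma (p + x) with hΔ
    have hΔ0 : 0 < Δ := by rw [hΔ]; linarith
    have h3 : (p : ℝ) ^ g * Δ ≤ Real.Gamma (p + y + g) - Real.Gamma (p + x + g) := by
      refine le_trans ?_ h1
      apply mul_le_mul_of_nonneg_right _ hΔ0.le
      exact pow_le_pow_left₀ (by linarith) (by linarith) _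
    have h4 : (12 : ℝ) * ((p + g : ℕ) : ℝ) ^ 2 ≤ (p : ℝ) ^ (g + 1) := by exact_mod_cast pow_big p g h100 hg
    have hq0 : (0 : ℝ) < ((p + g : ℕ) : ℝ) := by exact_mod_cast (by omega : 0 < p + g)
    rw [le_div_iff₀ (by positivity)]
    refine le_trans ?_ h3
    have e3 : 6 * (p : ℝ) * (Δ / (p : ℝ) ^ 2) * ((p + g : ℕ) : ℝ) ^ 2 = (6 * ((p + g : ℕ) : ℝ) ^ 2) * Δ / p := by
      field_simp
    rw [e3, div_le_iff₀ (by linarith)]
    have e4 : (p : ℝ) ^ g * Δ * p = (p : ℝ) ^ (g + 1) * Δ := by rw [pow_succ]; ring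
    rw [e4]
    apply mul_le_mul_of_nonneg_right _ hΔ0.le
    have : (0 : ℝ) ≤ ((p + g : ℕ) : ℝ) ^ 2 := by positivity
    linarith

theorem amc_gr : Gr Pool.Agent.X28.WI.amc := by
  have e : ∀ p s, Pool.Agent.X28.WI.amc p s = s * ((((p - 1).factorial : ℝ) + 1) / (p : ℝ) ^ 2) := fun p s => by
    unfold Pool.Agent.X28.WI.amc; ring
  refine ⟨fun p hp => ?_, ?_, ?_⟩
  · unfold Pool.Agent.X28.WI.amc
    fun_prop
  · intro p hp h100 x y hx hxy
    have hp' : (100 : ℝ) ≤ p := by exact_mod_cast h100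
    rw [e, e]
    exact mul_lt_mul_of_pos_right hxy (by positivity)
  · intro p q hp hq h100 hpq x y hx hxy
    obtain ⟨g, hg, rfl⟩ := gap p q hp hq h100 hpq
    have hp' : (100 : ℝ) ≤ p := by exact_mod_cast h100
    rw [e, e, e, e, ← sub_mul, ← sub_mul]
    have hd : 0 < y - x := by linarith
    have h1 : 6 * (p + g) ^ 2 * ((p - 1).factorial + 1) ≤ p * ((p + g - 1).factorial + 1) := by
      have h2 := Nat.factorial_mul_pow_le_factorial (m := p - 1) (n := g)
      have h3 : p - 1 + 1 = p := by omega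
      have h4 : p - 1 + g = p + g - 1 := by omega
      rw [h3, h4] at h2
      have h5 := pow_big p g h100 hg
      have h6 : 1 ≤ (p - 1).factorial := Nat.factorial_pos _
      calc 6 * (p + g) ^ 2 * ((p - 1).factorial + 1) ≤ 6 * (p + g) ^ 2 * (2 * (p - 1).factorial) := by gcongr; omega
        _ = 12 * (p + g) ^ 2 * (p - 1).factorial := by ring
        _ ≤ p ^ (g + 1) * (p - 1).factorial := Nat.mul_le_mul_right _ h5
        _ = p * ((p - 1).factorial * p ^ g) := by ring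
        _ ≤ p * (p + g - 1).factorial := Nat.mul_le_mul_left _ h2
        _ ≤ p * ((p + g - 1).factorial + 1) := Nat.mul_le_mul_left _ (Nat.le_succ _)
    have h2 : (6 : ℝ) * ((p + g : ℕ) : ℝ) ^ 2 * (((p - 1).factorial : ℝ) + 1) ≤ p * (((p + g - 1).factorial : ℝ) + 1) := by
      exact_mod_cast h1
    have hq0 : (0 : ℝ) < ((p + g : ℕ) : ℝ) := by exact_mod_cast (by omega : 0 < p + g)
    have h3 : 6 * (p : ℝ) * ((((p - 1).factorial : ℝ) + 1) / (p : ℝ) ^ 2) ≤
        (((p + g - 1).factorial : ℝ) + 1) / ((p + g : ℕ) : ℝ) ^ 2 := by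
      rw [le_div_iff₀ (by positivity)]
      have e3 : 6 * (p : ℝ) * ((((p - 1).factorial : ℝ) + 1) / (p : ℝ) ^ 2) * ((p + g : ℕ) : ℝ) ^ 2 =
          (6 * ((p + g : ℕ) : ℝ) ^ 2 * (((p - 1).factorial : ℝ) + 1)) / p := by
        field_simp
      rw [e3, div_le_iff₀ (by linarith)]
      linarith
    have h4 := mul_le_mul_of_nonneg_left h3 hd.le
    calc 6 * (p : ℝ) * ((y - x) * ((((p - 1).factorial : ℝ) + 1) / (p : ℝ) ^ 2)) =
          (y - x) * (6 * (p : ℝ) * ((((p - 1).factorial : ℝ) + 1) / (p : ℝ) ^ 2)) := by ring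
      _ ≤ _ := h4

end Pool.Agent.X28.WB
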