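import Mathlib

set_option autoImplicit false

/-! Fast growing families of curves: all residues can be prescribed at once (nested intervals), and generic
parameters. -/

namespace Pool.Agent.X28.WB

open Set Filter Topology

/-- a fast growing family -/
structure Gr (φ : ℕ → ℝ → ℝ) : Prop where
  cont : ∀ p : ℕ, p.Prime → Continuous (φ p)
  mono : ∀ p : ℕ, p.Prime → 100 ≤ p → ∀ x y : ℝ, 0 ≤ x → x < y → φ p x < φ p y
  grow : ∀ p q : ℕ, p.Prime → q.Prime → 100 ≤ p → p < q → ∀ x y : ℝ, 0 ≤ x → x < y →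
    6 * p * (φ p y - φ p x) ≤ φ q y - φ q x

/-- the value is inside the arc -/
def C (φ : ℕ → ℝ → ℝ) (b : ℕ → ℤ) (p : ℕ) (t : ℝ) : Prop :=
  ∃ m : ℤ, m + (b p : ℝ) / p < φ p t ∧ φ p t < m + (b p : ℝ) / p + 1 / p

lemma C_floor {φ : ℕ → ℝ → ℝ} {b : ℕ → ℤ} {p : ℕ} {t : ℝ} (hp : 0 < p) (h : C φ b p t) :
    (p : ℤ) ∣ ⌊(p : ℝ) * φ p t⌋ - b p := by
  obtain ⟨m, h1, h2⟩ := h
  have hp' : (0 : ℝ) < p := by exact_mod_cast hp
  have h3 : ⌊(p : ℝ) * φ p t⌋ = p * m + b p := by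
    rw [Int.floor_eq_iff]
    push_cast
    have e1 : (p : ℝ) * (m + (b p : ℝ) / p) = p * m + b p := by field_simp
    have e2 : (p : ℝ) * (m + (b p : ℝ) / p + 1 / p) = p * m + b p + 1 := by field_simp
    constructor
    · rw [← e1]
      exact (mul_lt_mul_of_pos_left h1 hp').le
    · rw [← e2]
      exact mul_lt_mul_of_pos_left h2 hp'
  rw [h3]
  exact ⟨m, by ring⟩

lemma C_open {φ : ℕ → ℝ → ℝ} (hφ : Gr φ) (b : ℕ → ℤ) (p : ℕ) (hp : p.Prime) : IsOpen {t | C φ b p t} := by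
  have e : {t | C φ b p t} = ⋃ m : ℤ, ({t | m + (b p : ℝ) / p < φ p t} ∩ {t | φ p t < m + (b p : ℝ) / p + 1 / p}) := by
    ext t
    simp only [C, mem_iUnion, mem_inter_iff, mem_ofPred_eq]
  rw [e]
  exact isOpen_iUnion fun m => (isOpen_lt continuous_const (hφ.cont p hp)).inter
    (isOpen_lt (hφ.cont p hp) continuous_const)

/-- the `k`-th prime -/
noncomputable def P (k : ℕ) : ℕ := Nat.nth Nat.Prime k

lemma P_prime (k : ℕ) : (P k).Prime := Nat.prime_nth_prime k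

lemma P_lt (k : ℕ) : P k < P (k + 1) := Nat.nth_strictMono Nat.infinite_setOfPred_prime (Nat.lt_succ_self k)

/-- the states -/
def St (φ : ℕ → ℝ → ℝ) (k₀ k : ℕ) (s : ℝ × ℝ) : Prop :=
  0 ≤ s.1 ∧ s.1 < s.2 ∧ 2 ≤ φ (P (k₀ + k)) s.2 - φ (P (k₀ + k)) s.1

lemma step {φ : ℕ → ℝ → ℝ} (hφ : Gr φ) (b : ℕ → ℤ) (k₀ : ℕ) (hk : 100 ≤ P k₀) (k : ℕ) (s : ℝ × ℝ) (hs : St φ k₀ k s) :
    ∃ s' : ℝ × ℝ, St φ k₀ (k + 1) s' ∧ s.1 ≤ s'.1 ∧ s'.2 ≤ s.2 ∧
      ∀ t, s'.1 ≤ t → t ≤ s'.2 → C φ b (P (k₀ + k)) t := by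
  obtain ⟨h0, h1, h2⟩ := hs
  have hp := P_prime (k₀ + k)
  have h100 : 100 ≤ P (k₀ + k) := hk.trans
    ((Nat.nth_strictMono Nat.infinite_setOfPred_prime).monotone (Nat.le_add_right _ _))
  set p := P (k₀ + k) with hpd
  have hp' : (100 : ℝ) ≤ p := by exact_mod_cast h100
  set u : ℝ := (b p : ℝ) / p with hu
  set m : ℤ := ⌈φ p s.1 - u⌉ with hm
  have hm1 : φ p s.1 - u ≤ m := Int.le_ceil _
  have hm2 : (m : ℝ) < φ p s.1 - u + 1 := Int.ceil_lt_add_one _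
  have hq : 1 / (3 * (p : ℝ)) ≤ 1 / 2 := by
    apply one_div_le_one_div_of_le (by norm_num)
    linarith
  have hq0 : 0 < 1 / (3 * (p : ℝ)) := by positivity
  obtain ⟨x', hx', hfx⟩ : ∃ t ∈ Icc s.1 s.2, φ p t = m + u + 1 / (3 * p) := by
    apply intermediate_value_Icc h1.le (hφ.cont p hp).continuousOn
    constructor <;> linarith
  obtain ⟨y', hy', hfy⟩ : ∃ t ∈ Icc x' s.2, φ p t = m + u + 2 * (1 / (3 * p)) := by
    apply intermediate_value_Icc hx'.2 (hφ.cont p hp).continuousOn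
    constructor <;> linarith
  have hlt : x' < y' := by
    rcases hy'.1.eq_or_lt with h | h
    · rw [h] at hfx
      linarith
    · exact h
  have hx0 : 0 ≤ x' := h0.trans hx'.1
  refine ⟨(x', y'), ⟨hx0, hlt, ?_⟩, hx'.1, hy'.2, ?_⟩
  · have h3 := hφ.grow p (P (k₀ + (k + 1))) hp (P_prime _) h100 (P_lt (k₀ + k)) x' y' hx0 hlt
    have h4 : 6 * (p : ℝ) * (φ p y' - φ p x') = 2 := by
      rw [hfx, hfy]
      field_simp
      ring
    rw [h4] at h3
    exact h3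
  · intro t ht1 ht2
    have h5 : φ p x' ≤ φ p t := by
      rcases ht1.eq_or_lt with h | h
      · exact (congrArg (φ p) h).le
      · exact (hφ.mono p hp h100 _ _ hx0 h).le
    have h6 : φ p t ≤ φ p y' := by
      rcases ht2.eq_or_lt with h | h
      · exact (congrArg (φ p) h).le
      · exact (hφ.mono p hp h100 _ _ (hx0.trans ht1) h).le
    refine ⟨m, by linarith, ?_⟩
    have h7 : 1 / (p : ℝ) = 3 * (1 / (3 * p)) := by field_simp
    rw [h7]
    linarith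

/-- all residues can be prescribed, starting with a good interval -/
lemma nested {φ : ℕ → ℝ → ℝ} (hφ : Gr φ) (b : ℕ → ℤ) (k₀ : ℕ) (hk : 100 ≤ P k₀) (s : ℝ × ℝ) (hs : St φ k₀ 0 s) :
    ∃ t, s.1 ≤ t ∧ t ≤ s.2 ∧ ∀ p : ℕ, p.Prime → P k₀ ≤ p → C φ b p t := by
  classical
  choose! nx h1 h2 h3 h4 using fun k s (hs : St φ k₀ k s) => step hφ b k₀ hk k s hs
  let S : ℕ → ℝ × ℝ := fun k => Nat.rec s (fun k r => nx k r) k
  have hS0 : S 0 = s := rfl
  have hS1 : ∀ k, S (k + 1) = nx k (S k) := fun k => rfl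
  have hSt : ∀ k, St φ k₀ k (S k) := by
    intro k
    induction k with
    | zero => exact hs
    | succ k ih => rw [hS1]; exact h1 k _ ih
  have hmono : Monotone fun k => (S k).1 := monotone_nat_of_le_succ fun k => by
    rw [hS1]; exact h2 k _ (hSt k)
  have hanti : Antitone fun k => (S k).2 := antitone_nat_of_succ_le fun k => by
    rw [hS1]; exact h3 k _ (hSt k)
  have hle : (fun k => (S k).1) ≤ fun k => (S k).2 := fun k => (hSt k).2.1.le
  have hmem := hmono.ciSup_mem_iInter_Icc_of_antitone hanti hle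
  rw [mem_iInter] at hmem
  refine ⟨⨆ k, (S k).1, (hmem 0).1, (hmem 0).2, fun p hp hpk => ?_⟩
  obtain ⟨j, hj⟩ : ∃ j, P j = p := ⟨Nat.count Nat.Prime p, Nat.nth_count hp⟩
  have hjk : k₀ ≤ j := by
    by_contra hlt
    have := Nat.nth_strictMono Nat.infinite_setOfPred_prime (not_le.1 hlt)
    have h5 : P j < P k₀ := this
    omega
  obtain ⟨k, rfl⟩ := Nat.exists_eq_add_of_le hjk
  have h6 := hmem (k + 1)
  rw [← hj]
  exact h4 k _ (hSt k) _ h6.1 h6.2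

/-- near every parameter all residues of all large primes can be prescribed -/
theorem prescribe {φ : ℕ → ℝ → ℝ} (hφ : Gr φ) (α β : ℝ) (hα : 0 ≤ α) (hαβ : α < β) :
    ∃ p₀ : ℕ, ∀ b : ℕ → ℤ, ∃ t, α < t ∧ t < β ∧ ∀ p : ℕ, p.Prime → p₀ ≤ p → C φ b p t := by
  set x : ℝ := α + (β - α) / 3 with hx
  set y : ℝ := α + 2 * ((β - α) / 3) with hy
  have hd : 0 < (β - α) / 3 := by linarith
  have hx0 : 0 ≤ x := by linarith
  have hxy : x < y := by linarith
  have h101 : Nat.Prime 101 := by norm_num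
  have hc : 0 < φ 101 y - φ 101 x := by
    have := hφ.mono 101 h101 (by norm_num) x y hx0 hxy
    linarith
  obtain ⟨N, hN⟩ := exists_nat_gt (1 / (φ 101 y - φ 101 x))
  obtain ⟨q, hq1, hq⟩ := Nat.exists_infinite_primes (max 102 N)
  have hq102 : 102 ≤ q := (le_max_left _ _).trans hq1
  obtain ⟨j, hj⟩ : ∃ j, P j = q := ⟨Nat.count Nat.Prime q, Nat.nth_count hq⟩
  have hlt := P_lt j
  rw [hj] at hlt
  have h1 := hφ.grow 101 q h101 hq (by norm_num) (by omega) x y hx0 hxy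
  have h2 := hφ.grow q (P (j + 1)) hq (P_prime _) (by omega) hlt x y hx0 hxy
  have h3 : 1 / (φ 101 y - φ 101 x) < q := hN.trans_le (by exact_mod_cast (le_max_right _ _).trans hq1)
  rw [div_lt_iff₀ hc] at h3
  have h4 : 2 ≤ φ (P (j + 1)) y - φ (P (j + 1)) x := by
    refine le_trans ?_ h2
    have hq0 : (0 : ℝ) < q := by exact_mod_cast hq.pos
    have h5 : 6 * (q : ℝ) * (6 * (101 : ℕ) * (φ 101 y - φ 101 x)) ≤ 6 * q * (φ q y - φ q x) :=
      mul_le_mul_of_nonneg_left h1 (by positivity)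
    refine le_trans ?_ h5
    push_cast
    nlinarith
  refine ⟨P (j + 1), fun b => ?_⟩
  obtain ⟨t, ht1, ht2, ht3⟩ := nested hφ b (j + 1) (by omega) (x, y) ⟨hx0, hxy, h4⟩
  have ht1' : x ≤ t := ht1
  have ht2' : t ≤ y := ht2
  exact ⟨t, by linarith, by linarith, ht3⟩

/-- generic parameters -/
theorem generic {φ : ℕ → ℝ → ℝ} (hφ : Gr φ) (ψ : ℕ → ℝ) (hψ : Tendsto ψ atTop atTop) :
    ∀ᶠ t in residual ℝ, 0 < t → ∀ (b : ℤ) (N : ℕ), ∃ p₀ n : ℕ, N ≤ n ∧ (p₀ : ℝ) ≤ ψ n ∧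
      ∀ p : ℕ, p.Prime → p₀ ≤ p → p < n → C φ (fun _ => b) p t := by
  have main : ∀ (b : ℤ) (N : ℕ), ∀ᶠ t in residual ℝ, 0 < t → ∃ p₀ n : ℕ, N ≤ n ∧ (p₀ : ℝ) ≤ ψ n ∧
      ∀ p : ℕ, p.Prime → p₀ ≤ p → p < n → C φ (fun _ => b) p t := by
    intro b N
    set V : Set ℝ := Iio 0 ∪ ⋃ (p₀ : ℕ) (n : ℕ) (_ : N ≤ n ∧ (p₀ : ℝ) ≤ ψ n),
      ⋂ p ∈ (Finset.range n).filter (fun p => p.Prime ∧ p₀ ≤ p), {t | C φ (fun _ => b) p t} with hV
    have hVo : IsOpen V := by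
      refine isOpen_Iio.union (isOpen_iUnion fun p₀ => isOpen_iUnion fun n => isOpen_iUnion fun _ => ?_)
      apply isOpen_biInter_finset
      intro p hp
      exact C_open hφ _ p (Finset.mem_filter.1 hp).2.1
    have hVd : Dense V := by
      rw [dense_iff_inter_open]
      intro U hU hne
      obtain ⟨u, hu⟩ := hne
      rcases lt_or_ge u 0 with h | h
      · exact ⟨u, hu, Or.inl h⟩
      · obtain ⟨ε, hε, hball⟩ := Metric.isOpen_iff.1 hU u hu
        obtain ⟨p₀, hp₀⟩ := prescribe hφ u (u + ε) h (by linarith)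
        obtain ⟨t, ht1, ht2, ht3⟩ := hp₀ (fun _ => b)
        refine ⟨t, hball ?_, Or.inr ?_⟩
        · rw [Metric.mem_ball, Real.dist_eq, abs_of_pos (by linarith)]
          linarith
        · obtain ⟨n, hn1, hn2⟩ := ((hψ.eventually_ge_atTop (p₀ : ℝ)).and (eventually_ge_atTop N)).exists
          simp only [mem_iUnion, mem_iInter]
          refine ⟨p₀, n, ⟨hn2, hn1⟩, fun p hp => ?_⟩
          rw [Finset.mem_filter] at hp
          exact ht3 p hp.2.1 hp.2.2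
    filter_upwards [residual_of_dense_open hVo hVd] with t ht h0
    rcases ht with ht | ht
    · exact absurd h0 (not_lt.2 (le_of_lt ht))
    · simp only [mem_iUnion, mem_iInter] at ht
      obtain ⟨p₀, n, ⟨h1, h2⟩, h3⟩ := ht
      refine ⟨p₀, n, h1, h2, fun p hp hp0 hpn => ?_⟩
      exact h3 p (Finset.mem_filter.2 ⟨Finset.mem_range.2 hpn, hp, hp0⟩)
  have h1 : ∀ᶠ t in residual ℝ, ∀ b : ℤ, ∀ N : ℕ, 0 < t → ∃ p₀ n : ℕ, N ≤ n ∧ (p₀ : ℝ) ≤ ψ n ∧
      ∀ p : ℕ, p.Prime → p₀ ≤ p → p < n → C φ (fun _ => b) p t := by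
    rw [eventually_countable_forall]
    intro b
    rw [eventually_countable_forall]
    intro N
    exact main b N
  filter_upwards [h1] with t ht h0 b N
  exact ht b N h0

end Pool.Agent.X28.WB
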